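import Pool.Agent.Run7.h932.RG.Stm2

/-! Project RG2 (helper932), piece CH2: adapted from the piece CH of helper811. -/

set_option autoImplicit false

namespace Run7.h603.RG

open Finset Classical
open Run7.h932.RG

lemma dsum {n : ℕ} (G : Fin n → Fin n → Bool → ℝ) :
    ∑ ω : Fin n → Fin n → Bool, ∏ y, ∏ x, G y x (ω y x) = ∏ y, ∏ x, (G y x true + G y x false) := by
  have h1 : ∀ y : Fin n, ∑ a : Fin n → Bool, ∏ x, G y x (a x) = ∏ x, (G y x true + G y x false) := by
    intro y
    rw [← Fintype.piFinset_univ, ← prod_univ_sum (fun _ => univ) (fun x b => G y x b)]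
    apply prod_congr rfl
    intro x _
    exact Fintype.sum_bool _
  have h2 := (prod_univ_sum (fun _ : Fin n => (univ : Finset (Fin n → Bool))) (fun y a => ∏ x, G y x (a x))).symm
  rw [Fintype.piFinset_univ] at h2
  rw [h2]
  exact prod_congr rfl fun y _ => h1 y

lemma ms_sum {n : ℕ} (ω : Fin n → Fin n → Bool) :
    (ms ω : ℝ) = ∑ y, ∑ x, if x < y ∧ ω y x = true then (1 : ℝ) else 0 := by
  unfold ms
  rw [card_filter]
  push_cast
  rw [← univ_product_univ, sum_product, sum_comm]

lemma exp_ms {n : ℕ} (ω : Fin n → Fin n → Bool) (t : ℝ) :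
    Real.exp (t * ms ω) = ∏ y, ∏ x, (if x < y ∧ ω y x = true then Real.exp t else 1) := by
  rw [ms_sum, mul_sum, Real.exp_sum]
  apply prod_congr rfl
  intro y _
  rw [mul_sum, Real.exp_sum]
  apply prod_congr rfl
  intro x _
  split_ifs
  · rw [mul_one]
  · rw [mul_zero, Real.exp_zero]

lemma mu_nonneg {n : ℕ} {p : Fin n → Fin n → ℝ} (h0 : ∀ x y, 0 ≤ p x y) (h1 : ∀ x y, p x y ≤ 1)
    (ω : Fin n → Fin n → Bool) : 0 ≤ mu p ω := by
  unfold mu
  apply prod_nonneg
  intro y _
  apply prod_nonneg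
  intro x _
  unfold wt
  have h3 := h0 x y
  have h4 := h1 x y
  split_ifs <;> linarith

/-- the exponential moments -/
lemma expm {n : ℕ} {p : Fin n → Fin n → ℝ} {Δ : ℝ} (hq0 : ∀ x y, 0 ≤ p x y)
    (hq1 : ∀ x y, p x y ≤ 1) (hdeg : ∀ x, ∑ y, p x y ≤ Δ) (t : ℝ) (ht : |t| ≤ 1) :
    ∑ ω, mu p ω * Real.exp (t * (ms ω - PP p)) ≤ Real.exp (t ^ 2 * (n * Δ)) := by
  have h1 : ∀ ω, mu p ω * Real.exp (t * (ms ω - PP p)) =
      (∏ y, ∏ x, wt (p x y) (ω y x) * (if x < y ∧ ω y x = true then Real.exp t else 1)) * Real.exp (-(t * PP p)) := by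
    intro ω
    have e : t * (ms ω - PP p) = t * ms ω + -(t * PP p) := by ring
    rw [e, Real.exp_add, exp_ms, ← mul_assoc]
    congr 1
    unfold mu
    rw [← prod_mul_distrib]
    exact prod_congr rfl fun y _ => (prod_mul_distrib).symm
  rw [sum_congr rfl fun ω _ => h1 ω, ← sum_mul]
  rw [dsum (fun y x b => wt (p x y) b * (if x < y ∧ b = true then Real.exp t else 1))]
  have h2 : ∀ y x : Fin n, wt (p x y) true * (if x < y ∧ true = true then Real.exp t else 1) +
      wt (p x y) false * (if x < y ∧ false = true then Real.exp t else 1) ≤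
      Real.exp ((if x < y then p x y else 0) * (t + t ^ 2)) := by
    intro y x
    have hp0 := hq0 x y
    simp only [wt, if_true, and_true, Bool.false_eq_true, and_false, if_false, mul_one]
    split_ifs with hxy
    · have h3 : Real.exp t ≤ 1 + t + t ^ 2 := by
        have := Real.abs_exp_sub_one_sub_id_le ht
        have := (abs_le.1 this).2
        linarith
      have h4 : p x y * Real.exp t + (1 - p x y) ≤ 1 + p x y * (t + t ^ 2) := by nlinarith
      have h5 := Real.add_one_le_exp (p x y * (t + t ^ 2))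
      linarith
    · rw [zero_mul, Real.exp_zero]
      linarith
  have h3 : ∏ y, ∏ x, (wt (p x y) true * (if x < y ∧ true = true then Real.exp t else 1) +
      wt (p x y) false * (if x < y ∧ false = true then Real.exp t else 1)) ≤
      ∏ y : Fin n, ∏ x : Fin n, Real.exp ((if x < y then p x y else 0) * (t + t ^ 2)) := by
    have h4 : ∀ y x : Fin n, 0 ≤ wt (p x y) true * (if x < y ∧ true = true then Real.exp t else 1) +
      wt (p x y) false * (if x < y ∧ false = true then Real.exp t else 1) := by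
      intro y x
      have hp0 := hq0 x y
      have hp1 := hq1 x y
      simp only [wt, if_true, Bool.false_eq_true, if_false]
      have := Real.exp_pos t
      split_ifs <;> nlinarith
    apply Finset.prod_le_prod
    · intro y _; exact prod_nonneg fun x _ => h4 y x
    · intro y _
      apply Finset.prod_le_prod
      · intro x _; exact h4 y x
      · intro x _; exact h2 y x
  have h4 : ∏ y : Fin n, ∏ x : Fin n, Real.exp ((if x < y then p x y else 0) * (t + t ^ 2)) =
      Real.exp (PP p * (t + t ^ 2)) := by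
    unfold PP
    rw [sum_mul, Real.exp_sum]
    apply prod_congr rfl
    intro y _
    rw [sum_mul, Real.exp_sum]
  rw [h4] at h3
  refine (mul_le_mul_of_nonneg_right h3 (Real.exp_pos _).le).trans ?_
  rw [← Real.exp_add, Real.exp_le_exp]
  have h5 : PP p ≤ n * Δ := by
    unfold PP
    calc ∑ y, ∑ x, (if x < y then p x y else 0) = ∑ x, ∑ y, (if x < y then p x y else 0) :=
          sum_comm
      _ ≤ ∑ x, ∑ y, p x y := by
          apply sum_le_sum
          intro x _
          apply sum_le_sum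
          intro y _
          split_ifs
          · exact le_rfl
          · exact hq0 x y
      _ ≤ ∑ _x : Fin n, Δ := sum_le_sum fun y _ => hdeg y
      _ = n * Δ := by rw [sum_const, card_univ, Fintype.card_fin, nsmul_eq_mul]
  have h6 : PP p * (t + t ^ 2) + -(t * PP p) = t ^ 2 * PP p := by ring
  rw [h6]
  exact mul_le_mul_of_nonneg_left h5 (sq_nonneg t)

theorem t_CH2 : S_CH2 := by
  intro Δ hΔ
  obtain ⟨t, ht⟩ : ∃ t : ℝ, t = min 1 (1 / (2 * Δ)) := ⟨_, rfl⟩
  have ht0 : 0 < t := by rw [ht]; exact lt_min one_pos (by positivity)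
  have ht1 : t ≤ 1 := by rw [ht]; exact min_le_left _ _
  have htΔ : t * Δ ≤ 1 / 2 := by
    have h1 : t ≤ 1 / (2 * Δ) := by rw [ht]; exact min_le_right _ _
    calc t * Δ ≤ 1 / (2 * Δ) * Δ := mul_le_mul_of_nonneg_right h1 hΔ.le
      _ = 1 / 2 := by field_simp
  refine ⟨t / 2, by positivity, ?_⟩
  intro n p hn hq0 hq1 hdeg
  have hmu := mu_nonneg hq0 hq1
  have hn0 : (0 : ℝ) ≤ n := Nat.cast_nonneg n
  have key : ∀ s : ℝ, |s| = t → ∑ ω ∈ univ.filter (fun ω => t * n ≤ s * ((ms ω : ℝ) - PP p)), mu p ω ≤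
      Real.exp (-(t / 2 * n)) := by
    intro s hs
    have h1 := expm hq0 hq1 hdeg s (by rw [hs]; exact ht1)
    have h2 : Real.exp (t * n) * ∑ ω ∈ univ.filter (fun ω => t * n ≤ s * ((ms ω : ℝ) - PP p)), mu p ω ≤
        ∑ ω, mu p ω * Real.exp (s * (ms ω - PP p)) := by
      rw [mul_sum]
      calc ∑ ω ∈ univ.filter (fun ω => t * n ≤ s * ((ms ω : ℝ) - PP p)), Real.exp (t * n) * mu p ω
          ≤ ∑ ω ∈ univ.filter (fun ω => t * n ≤ s * ((ms ω : ℝ) - PP p)), mu p ω * Real.exp (s * (ms ω - PP p)) := by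
            apply sum_le_sum
            intro ω hω
            rw [mul_comm]
            apply mul_le_mul_of_nonneg_left _ (hmu ω)
            rw [Real.exp_le_exp]
            exact (mem_filter.1 hω).2
        _ ≤ _ := sum_le_sum_of_subset_of_nonneg (subset_univ _)
            (fun ω _ _ => mul_nonneg (hmu ω) (Real.exp_pos _).le)
    have h3 := h2.trans h1
    have h4 : s ^ 2 = t ^ 2 := by rw [← sq_abs, hs]
    rw [h4] at h3
    have h5 : Real.exp (t ^ 2 * (n * Δ)) ≤ Real.exp (t * n) * Real.exp (-(t / 2 * n)) := by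
      rw [← Real.exp_add, Real.exp_le_exp]
      have h6 : t ^ 2 * (n * Δ) = (t * Δ) * (t * n) := by ring
      rw [h6]
      have h7 : (t * Δ) * (t * n) ≤ 1 / 2 * (t * n) := mul_le_mul_of_nonneg_right htΔ (by positivity)
      linarith
    exact le_of_mul_le_mul_left (h3.trans h5) (Real.exp_pos _)
  have hk1 := key t (abs_of_pos ht0)
  have hk2 := key (-t) (by rw [abs_neg, abs_of_pos ht0])
  have hsub : (univ.filter fun ω : Fin n → Fin n → Bool => (n : ℝ) ≤ |(ms ω : ℝ) - PP p|) ⊆
      (univ.filter (fun ω => t * n ≤ t * ((ms ω : ℝ) - PP p))) ∪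
        (univ.filter (fun ω => t * n ≤ -t * ((ms ω : ℝ) - PP p))) := by
    intro ω hω
    rw [mem_filter] at hω
    rw [mem_union, mem_filter, mem_filter]
    rcases le_abs.1 hω.2 with h | h
    · left; exact ⟨mem_univ _, mul_le_mul_of_nonneg_left h ht0.le⟩
    · right
      refine ⟨mem_univ _, ?_⟩
      have := mul_le_mul_of_nonneg_left h ht0.le
      linarith
  calc ∑ ω ∈ univ.filter fun ω : Fin n → Fin n → Bool => (n : ℝ) ≤ |(ms ω : ℝ) - PP p|, mu p ω
      ≤ ∑ ω ∈ (univ.filter (fun ω => t * n ≤ t * ((ms ω : ℝ) - PP p))) ∪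
        (univ.filter (fun ω => t * n ≤ -t * ((ms ω : ℝ) - PP p))), mu p ω :=
        sum_le_sum_of_subset_of_nonneg hsub (fun ω _ _ => hmu ω)
    _ ≤ ∑ ω ∈ univ.filter (fun ω => t * n ≤ t * ((ms ω : ℝ) - PP p)), mu p ω +
        ∑ ω ∈ univ.filter (fun ω => t * n ≤ -t * ((ms ω : ℝ) - PP p)), mu p ω := by
        have h1 := sum_union_inter (s₁ := univ.filter (fun ω : Fin n → Fin n → Bool => t * n ≤ t * ((ms ω : ℝ) - PP p)))
          (s₂ := univ.filter (fun ω : Fin n → Fin n → Bool => t * n ≤ -t * ((ms ω : ℝ) - PP p))) (f := fun ω => mu p ω)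
        have h2 : 0 ≤ ∑ ω ∈ (univ.filter (fun ω : Fin n → Fin n → Bool => t * n ≤ t * ((ms ω : ℝ) - PP p))) ∩
          (univ.filter (fun ω => t * n ≤ -t * ((ms ω : ℝ) - PP p))), mu p ω := sum_nonneg fun ω _ => hmu ω
        linarith
    _ ≤ 2 * Real.exp (-(t / 2 * n)) := by linarith

end Run7.h603.RG
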